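import Mathlib
open MeasureTheory AddCircle Complex
open scoped ComplexConjugate ENNReal

/-!
# Normalised biharmonic Poisson transforms: bounded `f / R` forces a bounded density

`UnitAddCircle` parametrises the unit circle by `t ↦ exp (2 π i t)`, `haarAddCircle` is normalised
arc length, and `fourierCoeff g n` is the `n`-th Fourier coefficient of `g`.
-/

namespace Pool.Agent.Results.MP_a0f451_an.BoundedDensity

/-- The point `exp (2 π i t)` of the unit circle. -/
noncomputable def pt (t : UnitAddCircle) : ℂ := fourier 1 t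

/-- The Poisson kernel. -/
noncomputable def poisson (z ξ : ℂ) : ℝ := (1 - ‖z‖ ^ 2) / ‖ξ - z‖ ^ 2

/-- The biharmonic Poisson kernel `P log P`. -/
noncomputable def biPoisson (z ξ : ℂ) : ℝ := poisson z ξ * Real.log (poisson z ξ)

/-- An analytic functional on the circle, given by its coefficients `ν_n = ν(ξ ^ (-n))`, which satisfy
`limsup |ν_n| ^ (1 / |n|) ≤ 1`. -/
structure AnalyticFunctional where
  /-- the coefficients `ν(ξ ^ (-n))` -/
  coeff : ℤ → ℂ
  growth : ∀ ρ : ℝ, 1 < ρ → ∃ C : ℝ, ∀ n : ℤ, ‖coeff n‖ ≤ C * ρ ^ n.natAbs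

/-- The value `ν(g) = ∑ ĝ(n) ν(ξ ^ n)` of an analytic functional at a function `g` on the circle. -/
noncomputable def AnalyticFunctional.eval (ν : AnalyticFunctional) (g : UnitAddCircle → ℂ) : ℂ :=
  ∑' n : ℤ, fourierCoeff g n * ν.coeff (-n)

/-- The biharmonic Poisson transform. -/
noncomputable def AnalyticFunctional.transform (ν : AnalyticFunctional) (z : ℂ) : ℂ :=
  ν.eval fun t => (biPoisson z (pt t) : ℂ)

lemma norm_fourier (n : ℤ) (t : UnitAddCircle) : ‖(fourier n t : ℂ)‖ = 1 := by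
  rw [fourier_apply, Circle.norm_coe]

lemma pt_pow (k : ℕ) (t : UnitAddCircle) : pt t ^ k = fourier k t := by
  unfold pt
  induction k with
  | zero => simp
  | succ k ih => rw [pow_succ, ih, ← fourier_add]; norm_cast

lemma conj_pt_pow (k : ℕ) (t : UnitAddCircle) : (conj (pt t)) ^ k = fourier (-k) t := by
  rw [← map_pow, pt_pow, fourier_neg]

/-- Fourier coefficients of a uniformly convergent series. -/
lemma fourierCoeff_hasSum {ι : Type*} [Countable ι] (F : ι → UnitAddCircle → ℂ) (B : ι → ℝ)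
    (hF : ∀ i, Continuous (F i)) (hB : ∀ i t, ‖F i t‖ ≤ B i) (hs : Summable B)
    {h : UnitAddCircle → ℂ} (hh : ∀ t, HasSum (fun i => F i t) (h t)) (n : ℤ) :
    HasSum (fun i => fourierCoeff (F i) n) (fourierCoeff h n) := by
  have h1 : ∀ i, Integrable (fun t => (fourier (-n) t : ℂ) • F i t) (haarAddCircle : Measure UnitAddCircle) := fun i =>
    ((fourier (-n)).continuous.smul (hF i)).integrable_of_hasCompactSupport
      (HasCompactSupport.of_compactSpace _)
  have h2 : Summable fun i => ∫ t, ‖(fourier (-n) t : ℂ) • F i t‖ ∂(haarAddCircle : Measure UnitAddCircle) := by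
    refine Summable.of_nonneg_of_le (fun i => integral_nonneg fun t => norm_nonneg _) (fun i => ?_) hs
    calc ∫ t, ‖(fourier (-n) t : ℂ) • F i t‖ ∂(haarAddCircle : Measure UnitAddCircle) ≤ ∫ t, B i ∂(haarAddCircle : Measure UnitAddCircle) := by
          refine integral_mono (h1 i).norm (integrable_const _) fun t => ?_
          simp only [norm_smul, norm_fourier, one_mul]
          exact hB i t
      _ = B i := by simp
  have h3 := hasSum_integral_of_summable_integral_norm h1 h2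
  have h4 : (fun t => ∑' i, (fourier (-n) t : ℂ) • F i t) = fun t => (fourier (-n) t : ℂ) • h t := by
    funext t
    exact ((hh t).const_smul _).tsum_eq
  rw [h4] at h3
  exact h3

lemma fourierCoeff_fourier_mul (f : UnitAddCircle → ℂ) (k n : ℤ) :
    fourierCoeff (fun t => fourier k t * f t) n = fourierCoeff f (n - k) := by
  unfold fourierCoeff
  congr 1
  funext t
  rw [smul_eq_mul, smul_eq_mul, ← mul_assoc, ← fourier_add]
  congr 3
  ring

lemma fourierCoeff_translate (f : UnitAddCircle → ℂ) (a : UnitAddCircle) (n : ℤ) :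
    fourierCoeff (fun t => f (t - a)) n = fourier (-n) a * fourierCoeff f n := by
  unfold fourierCoeff
  rw [← integral_const_mul]
  rw [← integral_sub_right_eq_self (fun t => fourier (-n) a * ((fourier (-n) t : ℂ) • f t)) a]
  congr 1
  funext t
  rw [smul_eq_mul, smul_eq_mul, ← mul_assoc]
  congr 1
  rw [fourier_apply, fourier_apply, fourier_apply, ← Circle.coe_mul, ← AddCircle.toCircle_add,
    ← smul_add, add_sub_cancel]

lemma one_sub_ne_zero {w : ℂ} (hw : ‖w‖ < 1) : 1 - w ≠ 0 := by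
  intro h
  have : w = 1 := by linear_combination -h
  rw [this, norm_one] at hw
  exact lt_irrefl _ hw

lemma norm_sq_sub {r : ℝ} {p : ℂ} (hp : p * conj p = 1) :
    ((‖p - (r : ℂ)‖ ^ 2 : ℝ) : ℂ) = (1 - (r : ℂ) * p) * (1 - (r : ℂ) * conj p) := by
  rw [← Complex.normSq_eq_norm_sq, ← Complex.mul_conj, map_sub, Complex.conj_ofReal]
  linear_combination (1 - (r : ℂ) ^ 2) * hp

lemma pt_mul_conj (t : UnitAddCircle) : pt t * conj (pt t) = 1 := by
  rw [Complex.mul_conj, Complex.normSq_eq_norm_sq, pt, norm_fourier]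
  simp

lemma hasSum_poisson {r : ℝ} (h0 : 0 ≤ r) (h1 : r < 1) (t : UnitAddCircle) :
    HasSum (fun m : ℤ => (r : ℂ) ^ m.natAbs * fourier m t) (poisson r (pt t) : ℂ) := by
  have hw : ‖(r : ℂ) * pt t‖ < 1 := by
    rw [norm_mul, pt, norm_fourier, mul_one, Complex.norm_real, Real.norm_of_nonneg h0]
    exact h1
  have hw' : ‖(r : ℂ) * conj (pt t)‖ < 1 := by
    rw [norm_mul, Complex.norm_conj, pt, norm_fourier, mul_one, Complex.norm_real,
      Real.norm_of_nonneg h0]
    exact h1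
  have s1 := hasSum_geometric_of_norm_lt_one hw
  have s2 := (hasSum_geometric_of_norm_lt_one hw').mul_left ((r : ℂ) * conj (pt t))
  have e1 : ∀ n : ℕ, (r : ℂ) ^ (n : ℤ).natAbs * fourier (n : ℤ) t = ((r : ℂ) * pt t) ^ n := by
    intro n
    rw [mul_pow, pt_pow, Int.natAbs_natCast]
  have e2 : ∀ n : ℕ, (r : ℂ) ^ (-((n : ℤ) + 1)).natAbs * fourier (-((n : ℤ) + 1)) t =
      (r : ℂ) * conj (pt t) * ((r : ℂ) * conj (pt t)) ^ n := by
    intro n
    have : (-((n : ℤ) + 1)).natAbs = n + 1 := by omega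
    rw [this, ← pow_succ', mul_pow, conj_pt_pow]
    push_cast
    rfl
  have s3 : HasSum (fun m : ℤ => (r : ℂ) ^ m.natAbs * fourier m t)
      ((1 - (r : ℂ) * pt t)⁻¹ + (r : ℂ) * conj (pt t) * (1 - (r : ℂ) * conj (pt t))⁻¹) := by
    apply HasSum.of_nat_of_neg_add_one
    · simp only [e1]; exact s1
    · simp only [e2]; exact s2
  convert s3 using 1
  have hp : pt t * conj (pt t) = 1 := by
    rw [Complex.mul_conj, Complex.normSq_eq_norm_sq, pt, norm_fourier]
    simp
  have d1 : 1 - (r : ℂ) * pt t ≠ 0 := one_sub_ne_zero hw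
  have d2 : 1 - (r : ℂ) * conj (pt t) ≠ 0 := one_sub_ne_zero hw'
  rw [poisson, Complex.ofReal_div, norm_sq_sub hp, Complex.norm_real, Real.norm_of_nonneg h0]
  push_cast
  field_simp
  linear_combination ((r : ℂ) ^ 2) * hp

/-- The expansion of the logarithm of the Poisson kernel. -/
lemma hasSum_log {r : ℝ} (h0 : 0 ≤ r) (h1 : r < 1) (t : UnitAddCircle) :
    HasSum (fun k : ℕ => (r : ℂ) ^ (k + 1) / (k + 1) *
        (fourier ((k : ℤ) + 1) t + fourier (-((k : ℤ) + 1)) t))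
      ((Real.log (poisson r (pt t)) - Real.log (1 - r ^ 2) : ℝ) : ℂ) := by
  have hw : ‖(r : ℂ) * pt t‖ < 1 := by
    rw [norm_mul, pt, norm_fourier, mul_one, Complex.norm_real, Real.norm_of_nonneg h0]
    exact h1
  have s1 := hasSum_taylorSeries_neg_log' hw
  have s2 := Complex.hasSum_conj'.2 s1
  have s3 := s1.add s2
  have e : ∀ k : ℕ, (r : ℂ) ^ (k + 1) / (k + 1) *
        (fourier ((k : ℤ) + 1) t + fourier (-((k : ℤ) + 1)) t) =
      ((r : ℂ) * pt t) ^ (k + 1) / (k + 1) + conj (((r : ℂ) * pt t) ^ (k + 1) / (k + 1)) := by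
    intro k
    have hc1 : ((r : ℂ) * pt t) ^ (k + 1) = (r : ℂ) ^ (k + 1) * fourier ((k : ℤ) + 1) t := by
      rw [mul_pow, pt_pow]; push_cast; rfl
    have hc2 : conj (((r : ℂ) * pt t) ^ (k + 1)) = (r : ℂ) ^ (k + 1) * fourier (-((k : ℤ) + 1)) t := by
      rw [hc1, map_mul, map_pow, Complex.conj_ofReal, ← fourier_neg]
    have hc3 : conj ((k : ℂ) + 1) = (k : ℂ) + 1 := by simp
    rw [map_div₀, hc2, hc1, hc3]
    ring
  simp only [e]
  convert s3 using 1
  have d1 : 1 - (r : ℂ) * pt t ≠ 0 := one_sub_ne_zero hw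
  have hn : ‖pt t - r‖ ^ 2 = ‖1 - (r : ℂ) * pt t‖ ^ 2 := by
    have h2 := norm_sq_sub (r := r) (pt_mul_conj t)
    have h3 : ((‖1 - (r : ℂ) * pt t‖ ^ 2 : ℝ) : ℂ) =
        (1 - (r : ℂ) * pt t) * (1 - (r : ℂ) * conj (pt t)) := by
      rw [← Complex.normSq_eq_norm_sq, ← Complex.mul_conj, map_sub, map_mul, Complex.conj_ofReal,
        map_one]
    exact_mod_cast h2.trans h3.symm
  have hP : Real.log (poisson r (pt t)) = Real.log (1 - r ^ 2) - 2 * Real.log ‖1 - (r : ℂ) * pt t‖ := by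
    have d3 : 0 < ‖1 - (r : ℂ) * pt t‖ := norm_pos_iff.2 d1
    rw [poisson, hn, Complex.norm_real, Real.norm_of_nonneg h0, Real.log_div (by nlinarith) (by positivity),
      Real.log_pow]
    norm_num
  rw [hP, Complex.add_conj, Complex.neg_re, Complex.log_re]
  push_cast
  ring

lemma summable_pow_natAbs {r : ℝ} (h0 : 0 ≤ r) (h1 : r < 1) :
    Summable fun m : ℤ => r ^ m.natAbs := by
  refine Summable.of_nat_of_neg ?_ ?_
  · simp only [Int.natAbs_natCast]
    exact summable_geometric_of_lt_one h0 h1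
  · simp only [Int.natAbs_neg, Int.natAbs_natCast]
    exact summable_geometric_of_lt_one h0 h1

/-- The Fourier coefficients of the Poisson kernel. -/
lemma fourierCoeff_poisson {r : ℝ} (h0 : 0 ≤ r) (h1 : r < 1) (n : ℤ) :
    fourierCoeff (fun t => (poisson r (pt t) : ℂ)) n = (r : ℂ) ^ n.natAbs := by
  have hs := summable_pow_natAbs h0 h1
  have h := fourierCoeff_hasSum (fun (m : ℤ) (t : UnitAddCircle) => (r : ℂ) ^ m.natAbs * fourier m t)
    (fun m => r ^ m.natAbs) (fun m => continuous_const.mul (fourier m).continuous)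
    (fun m t => by
      rw [norm_mul, norm_fourier, mul_one, norm_pow, Complex.norm_real, Real.norm_of_nonneg h0])
    hs (hasSum_poisson h0 h1) n
  have e : ∀ m : ℤ, fourierCoeff (fun t : UnitAddCircle => (r : ℂ) ^ m.natAbs * fourier m t) n =
      if m = n then (r : ℂ) ^ n.natAbs else 0 := by
    intro m
    rw [fourierCoeff.const_mul, fourierCoeff_fourier]
    by_cases hmn : m = n
    · subst hmn; simp
    · rw [if_neg hmn, Pi.single_eq_of_ne (Ne.symm hmn), mul_zero]
  simp only [e] at h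
  exact h.unique (hasSum_ite_eq n _)

/-- The Fourier coefficients of the biharmonic Poisson kernel `P₁(r, ·)`. -/
noncomputable def bc (r : ℝ) (n : ℤ) : ℂ := fourierCoeff (fun t => (biPoisson r (pt t) : ℂ)) n

lemma norm_pt_sub_pos {r : ℝ} (h0 : 0 ≤ r) (h1 : r < 1) (t : UnitAddCircle) :
    0 < ‖pt t - (r : ℂ)‖ := by
  rw [norm_pos_iff]
  intro h
  have h2 : ‖pt t‖ = ‖(r : ℂ)‖ := by rw [sub_eq_zero.1 h]
  rw [pt, norm_fourier, Complex.norm_real, Real.norm_of_nonneg h0] at h2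
  linarith

lemma poisson_pos {r : ℝ} (h0 : 0 ≤ r) (h1 : r < 1) (t : UnitAddCircle) :
    0 < poisson r (pt t) := by
  have := norm_pt_sub_pos h0 h1 t
  rw [poisson, Complex.norm_real, Real.norm_of_nonneg h0]
  have h2 : 0 < 1 - r ^ 2 := by nlinarith
  positivity

lemma continuous_poisson' {r : ℝ} (h0 : 0 ≤ r) (h1 : r < 1) :
    Continuous fun t : UnitAddCircle => poisson r (pt t) := by
  unfold poisson
  exact continuous_const.div (((fourier 1).continuous.sub continuous_const).norm.pow 2) fun t =>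
    (pow_pos (norm_pt_sub_pos h0 h1 t) 2).ne'

lemma continuous_poisson {r : ℝ} (h0 : 0 ≤ r) (h1 : r < 1) :
    Continuous fun t : UnitAddCircle => (poisson r (pt t) : ℂ) :=
  continuous_ofReal.comp (continuous_poisson' h0 h1)

lemma continuous_biPoisson {r : ℝ} (h0 : 0 ≤ r) (h1 : r < 1) :
    Continuous fun t : UnitAddCircle => (biPoisson r (pt t) : ℂ) :=
  continuous_ofReal.comp ((continuous_poisson' h0 h1).mul
    ((continuous_poisson' h0 h1).log fun t => (poisson_pos h0 h1 t).ne'))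

lemma integrable_of_cont {f : UnitAddCircle → ℂ} (hf : Continuous f) : Integrable f (haarAddCircle : Measure UnitAddCircle) :=
  hf.integrable_of_hasCompactSupport (HasCompactSupport.of_compactSpace _)

lemma coeff_add' {f g : UnitAddCircle → ℂ} (hf : Continuous f) (hg : Continuous g) (n : ℤ) :
    fourierCoeff (f + g) n = fourierCoeff f n + fourierCoeff g n := by
  rw [fourierCoeff.add (integrable_of_cont hf) (integrable_of_cont hg), Pi.add_apply]

lemma hasSum_bc {r : ℝ} (h0 : 0 ≤ r) (h1 : r < 1) (n : ℤ) :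
    HasSum (fun k : ℕ => (r : ℂ) ^ (k + 1) / (k + 1) *
        ((r : ℂ) ^ (n - ((k : ℤ) + 1)).natAbs + (r : ℂ) ^ (n + ((k : ℤ) + 1)).natAbs))
      (bc r n - Real.log (1 - r ^ 2) * (r : ℂ) ^ n.natAbs) := by
  have hc := continuous_poisson h0 h1
  obtain ⟨M, hM⟩ := isCompact_univ.exists_bound_of_continuousOn hc.continuousOn
  have hs : Summable fun k : ℕ => r ^ (k + 1) * (2 * M) := by
    exact ((summable_nat_add_iff 1).2 (summable_geometric_of_lt_one h0 h1)).mul_right _
  have hM0 : 0 ≤ M := (norm_nonneg _).trans (hM 0 trivial)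
  have h := fourierCoeff_hasSum (fun (k : ℕ) (t : UnitAddCircle) => (r : ℂ) ^ (k + 1) / (k + 1) *
      (fourier ((k : ℤ) + 1) t + fourier (-((k : ℤ) + 1)) t) * (poisson r (pt t) : ℂ))
    (fun k => r ^ (k + 1) * (2 * M))
    (fun k => (continuous_const.mul ((fourier _).continuous.add (fourier _).continuous)).mul hc)
    (fun k t => by
      rw [norm_mul, norm_mul, norm_div, norm_pow, Complex.norm_real, Real.norm_of_nonneg h0]
      have e1 : ‖((k : ℂ) + 1)‖ = k + 1 := by
        rw [← Nat.cast_succ, Complex.norm_natCast]; push_cast; ring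
      have e2 : ‖fourier ((k : ℤ) + 1) t + fourier (-((k : ℤ) + 1)) t‖ ≤ 2 := by
        refine (norm_add_le _ _).trans ?_
        rw [norm_fourier, norm_fourier]
        norm_num
      rw [e1, mul_assoc]
      have e3 : r ^ (k + 1) / ((k : ℝ) + 1) ≤ r ^ (k + 1) :=
        div_le_self (by positivity) (by linarith [Nat.cast_nonneg (α := ℝ) k])
      exact mul_le_mul e3 (mul_le_mul e2 (hM t trivial) (norm_nonneg _) (by norm_num))
        (by positivity) (by positivity))
    hs (fun t => (hasSum_log h0 h1 t).mul_right _) n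
  have e1 : (fun k : ℕ => fourierCoeff (fun t : UnitAddCircle => (r : ℂ) ^ (k + 1) / (k + 1) *
      (fourier ((k : ℤ) + 1) t + fourier (-((k : ℤ) + 1)) t) * (poisson r (pt t) : ℂ)) n) =
      fun k : ℕ => (r : ℂ) ^ (k + 1) / (k + 1) *
        ((r : ℂ) ^ (n - ((k : ℤ) + 1)).natAbs + (r : ℂ) ^ (n + ((k : ℤ) + 1)).natAbs) := by
    funext k
    simp only [mul_assoc]
    rw [fourierCoeff.const_mul]
    congr 1
    have e : (fun t : UnitAddCircle => (fourier ((k : ℤ) + 1) t + fourier (-((k : ℤ) + 1)) t) *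
        (poisson r (pt t) : ℂ)) = (fun t => fourier ((k : ℤ) + 1) t * (poisson r (pt t) : ℂ)) +
        fun t => fourier (-((k : ℤ) + 1)) t * (poisson r (pt t) : ℂ) := by
      funext t
      simp only [Pi.add_apply]
      ring
    have e5 := coeff_add' (f := fun t => fourier ((k : ℤ) + 1) t * (poisson r (pt t) : ℂ))
      (g := fun t => fourier (-((k : ℤ) + 1)) t * (poisson r (pt t) : ℂ))
      ((fourier _).continuous.mul hc) ((fourier _).continuous.mul hc) n
    rw [e, e5, fourierCoeff_fourier_mul,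
      fourierCoeff_fourier_mul, fourierCoeff_poisson h0 h1, fourierCoeff_poisson h0 h1,
      sub_neg_eq_add]
  have e2 : fourierCoeff (fun t : UnitAddCircle =>
      ((Real.log (poisson r (pt t)) - Real.log (1 - r ^ 2) : ℝ) : ℂ) * (poisson r (pt t) : ℂ)) n =
      bc r n - Real.log (1 - r ^ 2) * (r : ℂ) ^ n.natAbs := by
    have e : (fun t : UnitAddCircle =>
        ((Real.log (poisson r (pt t)) - Real.log (1 - r ^ 2) : ℝ) : ℂ) * (poisson r (pt t) : ℂ)) =
        (fun t => (biPoisson r (pt t) : ℂ)) +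
        fun t => (-Real.log (1 - r ^ 2) : ℂ) * (poisson r (pt t) : ℂ) := by
      funext t
      simp only [Pi.add_apply, biPoisson]
      push_cast
      ring
    have e5 := coeff_add' (f := fun t => (biPoisson r (pt t) : ℂ))
      (g := fun t => (-Real.log (1 - r ^ 2) : ℂ) * (poisson r (pt t) : ℂ))
      (continuous_biPoisson h0 h1) (continuous_const.mul hc) n
    rw [e, e5, fourierCoeff.const_mul, fourierCoeff_poisson h0 h1, bc]
    ring
  rw [e1, e2] at h
  exact h

/-- The exponents of the series for `bc r n`, `N = |n|`. -/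
def ex (N k : ℕ) : ℕ := (k + 1) + ((N : ℤ) - (k + 1)).natAbs

lemma hasSum_L {r : ℝ} (h0 : 0 ≤ r) (h1 : r < 1) :
    HasSum (fun k : ℕ => r ^ (2 * (k + 1)) / ((k : ℝ) + 1)) (-Real.log (1 - r ^ 2)) := by
  have h := Real.hasSum_pow_div_log_of_abs_lt_one (x := r ^ 2) (by
    rw [abs_of_nonneg (by positivity)]; nlinarith)
  simp only [← pow_mul] at h
  exact h

lemma hasSum_bc' {r : ℝ} (h0 : 0 ≤ r) (h1 : r < 1) (n : ℤ) :
    HasSum (fun k : ℕ => (((r ^ ex n.natAbs k / ((k : ℝ) + 1) : ℝ)) : ℂ)) (bc r n) := by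
  have h := hasSum_bc h0 h1 n
  have h2 := ((hasSum_L h0 h1).mul_left (r ^ n.natAbs))
  have h3 := (Complex.hasSum_ofReal.2 h2)
  have h4 := h.sub h3
  have e1 : (fun k : ℕ => (((r ^ ex n.natAbs k / ((k : ℝ) + 1) : ℝ)) : ℂ)) =
      fun k : ℕ => (r : ℂ) ^ (k + 1) / (k + 1) *
        ((r : ℂ) ^ (n - ((k : ℤ) + 1)).natAbs + (r : ℂ) ^ (n + ((k : ℤ) + 1)).natAbs) -
        ((r ^ n.natAbs * (r ^ (2 * (k + 1)) / ((k : ℝ) + 1)) : ℝ) : ℂ) := by
    funext k
    have e : ((r : ℂ) ^ (n - ((k : ℤ) + 1)).natAbs + (r : ℂ) ^ (n + ((k : ℤ) + 1)).natAbs) =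
        (r : ℂ) ^ ((n.natAbs : ℤ) - (k + 1)).natAbs + (r : ℂ) ^ (n.natAbs + (k + 1)) := by
      rcases le_total 0 n with hn | hn
      · have e1 : (n - ((k : ℤ) + 1)).natAbs = ((n.natAbs : ℤ) - (k + 1)).natAbs := by omega
        have e2 : (n + ((k : ℤ) + 1)).natAbs = n.natAbs + (k + 1) := by omega
        rw [e1, e2]
      · have e1 : (n + ((k : ℤ) + 1)).natAbs = ((n.natAbs : ℤ) - (k + 1)).natAbs := by omega
        have e2 : (n - ((k : ℤ) + 1)).natAbs = n.natAbs + (k + 1) := by omega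
        rw [e1, e2, add_comm]
    rw [e, ex]
    push_cast
    have hk : (k : ℂ) + 1 ≠ 0 := by exact_mod_cast Nat.succ_ne_zero k
    field_simp
    ring
  have e2 : bc r n = (bc r n - Real.log (1 - r ^ 2) * (r : ℂ) ^ n.natAbs) -
      ((r ^ n.natAbs * -Real.log (1 - r ^ 2) : ℝ) : ℂ) := by
    push_cast
    ring
  rw [e1, e2]
  exact h4

/-- The decay of the coefficients. -/
lemma bc_le {s : ℝ} (h0 : 0 ≤ s) (h1 : s < 1) (n : ℤ) :
    ‖bc (s ^ 4) n‖ ≤ s ^ (2 * n.natAbs) * (1 - s ^ 2)⁻¹ := by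
  have hs4 : s ^ 4 < 1 := pow_lt_one₀ h0 h1 (by norm_num)
  have h := hasSum_bc' (by positivity) hs4 n
  have hg := (hasSum_geometric_of_lt_one (r := s ^ 2) (by positivity)
    (pow_lt_one₀ h0 h1 (by norm_num))).mul_left (s ^ (2 * n.natAbs))
  refine h.norm_le_of_bounded hg fun k => ?_
  rw [Complex.norm_real, Real.norm_of_nonneg (by positivity)]
  have h2 : (s ^ 4) ^ ex n.natAbs k / ((k : ℝ) + 1) ≤ (s ^ 4) ^ ex n.natAbs k :=
    div_le_self (by positivity) (by linarith [Nat.cast_nonneg (α := ℝ) k])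
  refine h2.trans ?_
  rw [← pow_mul, ← pow_mul, ← pow_add]
  refine pow_le_pow_of_le_one h0 h1.le ?_
  unfold ex
  omega

/-- The behaviour of the coefficients for `r → 1`. -/
lemma bc_approx {r : ℝ} (h0 : 0 ≤ r) (h1 : r < 1) (n : ℤ) :
    ‖(r : ℂ) ^ n.natAbs * bc r n - (-Real.log (1 - r ^ 2) : ℝ)‖ ≤ n.natAbs := by
  have h := (hasSum_bc' h0 h1 n).mul_left ((r : ℂ) ^ n.natAbs)
  have h2 := h.sub (Complex.hasSum_ofReal.2 (hasSum_L h0 h1))
  have h3 : HasSum (fun k : ℕ => (r : ℂ) ^ n.natAbs *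
    (((r ^ ex n.natAbs k / ((k : ℝ) + 1) : ℝ)) : ℂ) - (((r ^ (2 * (k + 1)) / ((k : ℝ) + 1)) : ℝ) : ℂ))
    (∑ k ∈ Finset.range n.natAbs, ((r : ℂ) ^ n.natAbs *
    (((r ^ ex n.natAbs k / ((k : ℝ) + 1) : ℝ)) : ℂ) - (((r ^ (2 * (k + 1)) / ((k : ℝ) + 1)) : ℝ) : ℂ))) :=
    hasSum_sum_of_ne_finset_zero (s := Finset.range n.natAbs) (fun k hk => by
      rw [Finset.mem_range, not_lt] at hk
      have e : n.natAbs + ex n.natAbs k = 2 * (k + 1) := by unfold ex; omega
      rw [← e, pow_add]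
      push_cast
      ring)
  rw [h2.unique h3]
  refine (norm_sum_le _ _).trans ?_
  calc ∑ k ∈ Finset.range n.natAbs, ‖(r : ℂ) ^ n.natAbs *
    (((r ^ ex n.natAbs k / ((k : ℝ) + 1) : ℝ)) : ℂ) - (((r ^ (2 * (k + 1)) / ((k : ℝ) + 1)) : ℝ) : ℂ)‖
      ≤ ∑ k ∈ Finset.range n.natAbs, 1 := by
        refine Finset.sum_le_sum fun k _ => ?_
        rw [← Complex.ofReal_pow, ← Complex.ofReal_mul, ← Complex.ofReal_sub, Complex.norm_real,
          Real.norm_eq_abs]
        have hk : (1 : ℝ) ≤ k + 1 := by linarith [Nat.cast_nonneg (α := ℝ) k]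
        have a1 : r ^ n.natAbs * (r ^ ex n.natAbs k / ((k : ℝ) + 1)) ≤ 1 := by
          rw [← mul_div_assoc]
          exact (div_le_self (by positivity) hk).trans (mul_le_one₀ (pow_le_one₀ h0 h1.le)
            (by positivity) (pow_le_one₀ h0 h1.le))
        have a2 : r ^ (2 * (k + 1)) / ((k : ℝ) + 1) ≤ 1 :=
          (div_le_self (by positivity) hk).trans (pow_le_one₀ h0 h1.le)
        have a3 : 0 ≤ r ^ n.natAbs * (r ^ ex n.natAbs k / ((k : ℝ) + 1)) := by positivity
        have a4 : 0 ≤ r ^ (2 * (k + 1)) / ((k : ℝ) + 1) := by positivity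
        rw [abs_le]
        constructor <;> linarith
    _ = n.natAbs := by simp

lemma bc_neg {r : ℝ} (h0 : 0 ≤ r) (h1 : r < 1) (n : ℤ) : bc r (-n) = bc r n := by
  have h := hasSum_bc' h0 h1 (-n)
  rw [Int.natAbs_neg] at h
  exact h.unique (hasSum_bc' h0 h1 n)

lemma pt_sub_mul (t a : UnitAddCircle) : pt (t - a) * pt a = pt t := by
  unfold pt
  rw [fourier_one, fourier_one, fourier_one, ← Circle.coe_mul, ← AddCircle.toCircle_add,
    sub_add_cancel]

lemma norm_pt (t : UnitAddCircle) : ‖pt t‖ = 1 := norm_fourier 1 t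

lemma biPoisson_rot (r : ℝ) (a t : UnitAddCircle) :
    biPoisson (r * pt a) (pt t) = biPoisson r (pt (t - a)) := by
  have h : poisson (r * pt a) (pt t) = poisson r (pt (t - a)) := by
    unfold poisson
    have e : pt t - r * pt a = (pt (t - a) - r) * pt a := by
      rw [sub_mul, pt_sub_mul]
    rw [e, norm_mul, norm_mul, norm_pt, mul_one, mul_one]
  rw [biPoisson, biPoisson, h]

section transform

variable (ν : AnalyticFunctional)

lemma exists_bound {r : ℝ} (h0 : 0 < r) (h1 : r < 1) :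
    ∃ B : ℤ → ℝ, Summable B ∧ ∀ n, ‖bc r n * ν.coeff n‖ ≤ B n := by
  set s : ℝ := r ^ (1 / 4 : ℝ) with hs
  have hs4 : s ^ 4 = r := by
    rw [hs, ← Real.rpow_natCast, ← Real.rpow_mul h0.le]
    norm_num
  have hs0 : 0 < s := Real.rpow_pos_of_pos h0 _
  have hs1 : s < 1 := Real.rpow_lt_one h0.le h1 (by norm_num)
  obtain ⟨C, hC⟩ := ν.growth s⁻¹ ((one_lt_inv₀ hs0).2 hs1)
  refine ⟨fun n => (1 - s ^ 2)⁻¹ * C * s ^ n.natAbs, (summable_pow_natAbs hs0.le hs1).mul_left _, ?_⟩
  intro n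
  have hb := bc_le hs0.le hs1 n
  rw [hs4] at hb
  have hs2 : 0 ≤ (1 - s ^ 2)⁻¹ := by
    rw [inv_nonneg]
    nlinarith
  rw [norm_mul]
  calc ‖bc r n‖ * ‖ν.coeff n‖ ≤ (s ^ (2 * n.natAbs) * (1 - s ^ 2)⁻¹) * (C * s⁻¹ ^ n.natAbs) :=
        mul_le_mul hb (hC n) (norm_nonneg _) (by positivity)
    _ = (1 - s ^ 2)⁻¹ * C * s ^ n.natAbs := by
        rw [pow_mul, sq, mul_pow, inv_pow]
        field_simp

lemma hasSum_transform {r : ℝ} (h0 : 0 < r) (h1 : r < 1) (a : UnitAddCircle) :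
    HasSum (fun n : ℤ => bc r n * ν.coeff n * fourier n a) (ν.transform (r * pt a)) := by
  obtain ⟨B, hB, hb⟩ := exists_bound ν h0 h1
  have hs : Summable (fun n : ℤ => bc r n * ν.coeff n * fourier n a) :=
    Summable.of_norm_bounded hB fun n => by
      rw [norm_mul, norm_fourier, mul_one]
      exact hb n
  have e : ν.transform (r * pt a) = ∑' n : ℤ, bc r n * ν.coeff n * fourier n a := by
    unfold AnalyticFunctional.transform AnalyticFunctional.eval
    rw [← (Equiv.neg ℤ).tsum_eq (fun n : ℤ => bc r n * ν.coeff n * fourier n a)]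
    refine tsum_congr fun n => ?_
    simp only [biPoisson_rot, Equiv.neg_apply]
    rw [fourierCoeff_translate (fun t => (biPoisson r (pt t) : ℂ)) a n, bc_neg h0.le h1, bc]
    ring
  rw [e]
  exact hs.hasSum

/-- The function `a ↦ f(r e ^ (2 π i a))`. -/
noncomputable def Fr (r : ℝ) (a : UnitAddCircle) : ℂ := ν.transform (r * pt a)

lemma continuous_Fr {r : ℝ} (h0 : 0 < r) (h1 : r < 1) : Continuous (Fr ν r) := by
  obtain ⟨B, hB, hb⟩ := exists_bound ν h0 h1
  have e : Fr ν r = fun a => ∑' n : ℤ, bc r n * ν.coeff n * fourier n a :=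
    funext fun a => (hasSum_transform ν h0 h1 a).tsum_eq.symm
  rw [e]
  refine continuous_tsum (fun n => continuous_const.mul (fourier n).continuous) hB fun n a => ?_
  rw [norm_mul, norm_fourier, mul_one]
  exact hb n

lemma fourierCoeff_Fr {r : ℝ} (h0 : 0 < r) (h1 : r < 1) (n : ℤ) :
    fourierCoeff (Fr ν r) n = bc r n * ν.coeff n := by
  obtain ⟨B, hB, hb⟩ := exists_bound ν h0 h1
  have h := fourierCoeff_hasSum (fun (m : ℤ) (t : UnitAddCircle) => bc r m * ν.coeff m * fourier m t)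
    B (fun m => continuous_const.mul (fourier m).continuous)
    (fun m t => by
      rw [norm_mul, norm_fourier, mul_one]
      exact hb m)
    hB (hasSum_transform ν h0 h1) n
  have e : ∀ m : ℤ, fourierCoeff (fun t : UnitAddCircle => bc r m * ν.coeff m * fourier m t) n =
      if m = n then bc r n * ν.coeff n else 0 := by
    intro m
    rw [fourierCoeff.const_mul, fourierCoeff_fourier]
    by_cases hmn : m = n
    · subst hmn; simp
    · rw [if_neg hmn, Pi.single_eq_of_ne (Ne.symm hmn), mul_zero]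
  simp only [e] at h
  exact h.unique (hasSum_ite_eq n _)

/-- The main estimate before the limit. -/
lemma main_r {r M : ℝ} (h0 : 0 < r) (h1 : r < 1) (hM : ∀ a, ‖Fr ν r a‖ ≤ M) (S : Finset ℤ)
    (b : ℤ → ℂ) :
    ‖∑ n ∈ S, b n * (bc r n * ν.coeff n)‖ ≤ M * ∫ t, ‖∑ n ∈ S, b n * fourier (-n) t‖ ∂(haarAddCircle : Measure UnitAddCircle) := by
  have hc := continuous_Fr ν h0 h1
  have hg : Continuous fun t : UnitAddCircle => ∑ n ∈ S, b n * (fourier (-n) t : ℂ) :=
    continuous_finsetSum _ fun n _ => continuous_const.mul (fourier _).continuous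
  have e : ∑ n ∈ S, b n * (bc r n * ν.coeff n) =
      ∫ t, Fr ν r t * ∑ n ∈ S, b n * fourier (-n) t ∂(haarAddCircle : Measure UnitAddCircle) := by
    have e1 : ∀ t, Fr ν r t * ∑ n ∈ S, b n * fourier (-n) t =
        ∑ n ∈ S, b n * ((fourier (-n) t : ℂ) • Fr ν r t) := by
      intro t
      rw [Finset.mul_sum]
      refine Finset.sum_congr rfl fun n _ => ?_
      rw [smul_eq_mul]
      ring
    simp only [e1]
    rw [integral_finsetSum]
    · refine Finset.sum_congr rfl fun n _ => ?_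
      rw [integral_const_mul, ← fourierCoeff_Fr ν h0 h1]
      rfl
    · intro n _
      exact (integrable_of_cont ((fourier _).continuous.smul hc)).const_mul _
  rw [e, ← integral_const_mul]
  refine (norm_integral_le_integral_norm _).trans ?_
  refine integral_mono (integrable_of_cont (hc.mul hg)).norm
    ((integrable_of_cont hg).norm.const_mul _) fun t => ?_
  simp only [norm_mul]
  exact mul_le_mul_of_nonneg_right (hM t) (norm_nonneg _)

lemma bessel_r {r M : ℝ} (h0 : 0 < r) (h1 : r < 1) (hM : ∀ a, ‖Fr ν r a‖ ≤ M) (S : Finset ℤ) :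
    ∑ n ∈ S, ‖bc r n * ν.coeff n‖ ^ 2 ≤ M ^ 2 := by
  let F : C(UnitAddCircle, ℂ) := ⟨Fr ν r, continuous_Fr ν h0 h1⟩
  have h := hasSum_sq_fourierCoeff (ContinuousMap.toLp (E := ℂ) 2 haarAddCircle ℂ F)
  simp only [fourierCoeff_toLp] at h
  have e : ∀ n, fourierCoeff F n = bc r n * ν.coeff n := fourierCoeff_Fr ν h0 h1
  simp only [e] at h
  refine (sum_le_hasSum S (fun _ _ => by positivity) h).trans ?_
  have e2 : ∫ t, ‖(ContinuousMap.toLp (E := ℂ) 2 haarAddCircle ℂ F) t‖ ^ 2 ∂(haarAddCircle : Measure UnitAddCircle) =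
      ∫ t, ‖Fr ν r t‖ ^ 2 ∂(haarAddCircle : Measure UnitAddCircle) := by
    refine integral_congr_ae ?_
    filter_upwards [ContinuousMap.coeFn_toLp (p := 2) (𝕜 := ℂ) haarAddCircle F] with t ht
    rw [ht]
    rfl
  rw [e2]
  calc ∫ t, ‖Fr ν r t‖ ^ 2 ∂(haarAddCircle : Measure UnitAddCircle) ≤ ∫ _t, M ^ 2 ∂(haarAddCircle : Measure UnitAddCircle) := by
        refine integral_mono ?_ (integrable_const _) fun t =>
          pow_le_pow_left₀ (norm_nonneg _) (hM t) 2
        exact (((continuous_Fr ν h0 h1).norm.pow 2)).integrable_of_hasCompactSupport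
          (HasCompactSupport.of_compactSpace _)
    _ = M ^ 2 := by simp

open Filter Topology

lemma tendsto_L : Tendsto (fun r : ℝ => -Real.log (1 - r ^ 2)) (𝓝[<] 1) atTop := by
  have h1 : Tendsto (fun r : ℝ => 1 - r ^ 2) (𝓝[<] 1) (𝓝[>] 0) := by
    rw [tendsto_nhdsWithin_iff]
    constructor
    · have : Tendsto (fun r : ℝ => 1 - r ^ 2) (𝓝 1) (𝓝 (1 - 1 ^ 2)) := by
        exact (continuous_const.sub (continuous_id.pow 2)).tendsto 1
      norm_num at this
      exact this.mono_left nhdsWithin_le_nhds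
    · have : Set.Ioo (0 : ℝ) 1 ∈ 𝓝[<] (1 : ℝ) := Ioo_mem_nhdsLT one_pos
      filter_upwards [this] with r hr
      have := hr.1
      have := hr.2
      show 0 < 1 - r ^ 2
      nlinarith
  exact tendsto_neg_atBot_atTop.comp (Real.tendsto_log_nhdsGT_zero.comp h1)

lemma mem_Ioo : Set.Ioo (0 : ℝ) 1 ∈ 𝓝[<] (1 : ℝ) := Ioo_mem_nhdsLT one_pos

lemma tendsto_bc (n : ℤ) :
    Tendsto (fun r : ℝ => bc r n / ((-Real.log (1 - r ^ 2) : ℝ) : ℂ)) (𝓝[<] 1) (𝓝 1) := by
  have h1 : Tendsto (fun r : ℝ => (r : ℂ) ^ n.natAbs * bc r n / ((-Real.log (1 - r ^ 2) : ℝ) : ℂ))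
      (𝓝[<] 1) (𝓝 1) := by
    rw [tendsto_iff_norm_sub_tendsto_zero]
    have h2 : Tendsto (fun r : ℝ => (n.natAbs : ℝ) / (-Real.log (1 - r ^ 2))) (𝓝[<] 1) (𝓝 0) :=
      tendsto_const_nhds.div_atTop tendsto_L
    refine squeeze_zero' (Eventually.of_forall fun r => norm_nonneg _) ?_ h2
    filter_upwards [mem_Ioo, tendsto_L.eventually_gt_atTop 0] with r hr hL
    have e : (r : ℂ) ^ n.natAbs * bc r n / ((-Real.log (1 - r ^ 2) : ℝ) : ℂ) - 1 =
        ((r : ℂ) ^ n.natAbs * bc r n - (-Real.log (1 - r ^ 2) : ℝ)) /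
          ((-Real.log (1 - r ^ 2) : ℝ) : ℂ) := by
      rw [sub_div, div_self]
      exact_mod_cast hL.ne'
    rw [e, norm_div, Complex.norm_real, Real.norm_of_nonneg hL.le]
    exact div_le_div_of_nonneg_right (bc_approx hr.1.le hr.2 n) hL.le
  have h3 : Tendsto (fun r : ℝ => ((r : ℂ) ^ n.natAbs)⁻¹) (𝓝[<] 1) (𝓝 1) := by
    have : Tendsto (fun r : ℝ => ((r : ℂ) ^ n.natAbs)⁻¹) (𝓝 1) (𝓝 ((((1 : ℝ) : ℂ) ^ n.natAbs)⁻¹)) := by
      refine Tendsto.inv₀ ?_ (by simp)
      exact (continuous_ofReal.pow _).tendsto 1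
    simp only [ofReal_one, one_pow, inv_one] at this
    exact this.mono_left nhdsWithin_le_nhds
  have h4 := h3.mul h1
  rw [one_mul] at h4
  refine h4.congr' ?_
  filter_upwards [mem_Ioo] with r hr
  have hr0 : (r : ℂ) ^ n.natAbs ≠ 0 := pow_ne_zero _ (by exact_mod_cast hr.1.ne')
  field_simp

lemma tendsto_M (C : ℝ) :
    Tendsto (fun r : ℝ => C * (1 + Real.log ((1 + r) / (1 - r))) / (-Real.log (1 - r ^ 2)))
      (𝓝[<] 1) (𝓝 C) := by
  have h1 : Tendsto (fun r : ℝ => (1 + 2 * Real.log (1 + r)) / (-Real.log (1 - r ^ 2)))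
      (𝓝[<] 1) (𝓝 0) := by
    refine Tendsto.div_atTop (a := 1 + 2 * Real.log (1 + 1)) ?_ tendsto_L
    have : ContinuousAt (fun r : ℝ => 1 + 2 * Real.log (1 + r)) 1 := by
      refine continuousAt_const.add (continuousAt_const.mul (ContinuousAt.log ?_ (by norm_num)))
      fun_prop
    exact this.tendsto.mono_left nhdsWithin_le_nhds
  have h2 : Tendsto (fun r : ℝ => C * (1 + (1 + 2 * Real.log (1 + r)) / (-Real.log (1 - r ^ 2))))
      (𝓝[<] 1) (𝓝 (C * (1 + 0))) := (h1.const_add 1).const_mul C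
  rw [add_zero, mul_one] at h2
  refine h2.congr' ?_
  filter_upwards [mem_Ioo, tendsto_L.eventually_gt_atTop 0] with r hr hL
  have a1 : 0 < 1 - r := by linarith [hr.2]
  have a2 : 0 < 1 + r := by linarith [hr.1]
  have e1 : Real.log ((1 + r) / (1 - r)) = Real.log (1 + r) - Real.log (1 - r) :=
    Real.log_div a2.ne' a1.ne'
  have e2 : Real.log (1 - r ^ 2) = Real.log (1 + r) + Real.log (1 - r) := by
    rw [← Real.log_mul a2.ne' a1.ne']
    ring_nf
  rw [e1]
  have hL' : -Real.log (1 - r ^ 2) ≠ 0 := hL.ne'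
  rw [mul_div_assoc]
  congr 1
  rw [eq_div_iff hL', add_mul, div_mul_cancel₀ _ hL', e2]
  ring

/-- Boundedness hypothesis. -/
def Bdd (C : ℝ) : Prop :=
  ∀ z : ℂ, ‖z‖ < 1 → ‖ν.transform z‖ ≤ C * (1 + Real.log ((1 + ‖z‖) / (1 - ‖z‖)))

variable {ν}

lemma Bdd.fr {C : ℝ} (h : Bdd ν C) {r : ℝ} (h0 : 0 < r) (h1 : r < 1) (a : UnitAddCircle) :
    ‖Fr ν r a‖ ≤ C * (1 + Real.log ((1 + r) / (1 - r))) := by
  have e : ‖(r : ℂ) * pt a‖ = r := by
    rw [norm_mul, norm_pt, mul_one, Complex.norm_real, Real.norm_of_nonneg h0.le]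
  have := h (r * pt a) (by rw [e]; exact h1)
  rwa [e] at this

lemma Bdd.star {C : ℝ} (h : Bdd ν C) (S : Finset ℤ) (b : ℤ → ℂ) :
    ‖∑ n ∈ S, b n * ν.coeff n‖ ≤ C * ∫ t, ‖∑ n ∈ S, b n * fourier (-n) t‖ ∂(haarAddCircle : Measure UnitAddCircle) := by
  have h1 : Tendsto (fun r : ℝ => ‖∑ n ∈ S, b n * (bc r n / ((-Real.log (1 - r ^ 2) : ℝ) : ℂ) *
      ν.coeff n)‖) (𝓝[<] 1) (𝓝 ‖∑ n ∈ S, b n * (1 * ν.coeff n)‖) := by
    refine Tendsto.norm (tendsto_finsetSum _ fun n _ => ?_)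
    exact ((tendsto_bc n).mul_const _).const_mul _
  simp only [one_mul] at h1
  have h2 := (tendsto_M C).mul_const (∫ t, ‖∑ n ∈ S, b n * (fourier (-n) t : ℂ)‖ ∂(haarAddCircle : Measure UnitAddCircle))
  refine le_of_tendsto_of_tendsto h1 h2 ?_
  filter_upwards [mem_Ioo, tendsto_L.eventually_gt_atTop 0] with r hr hL
  have h3 := main_r ν hr.1 hr.2 (h.fr hr.1 hr.2) S b
  have e : ∑ n ∈ S, b n * (bc r n / ((-Real.log (1 - r ^ 2) : ℝ) : ℂ) * ν.coeff n) =
      (∑ n ∈ S, b n * (bc r n * ν.coeff n)) / ((-Real.log (1 - r ^ 2) : ℝ) : ℂ) := by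
    rw [Finset.sum_div]
    refine Finset.sum_congr rfl fun n _ => ?_
    ring
  rw [e, norm_div, Complex.norm_real, Real.norm_of_nonneg hL.le, div_mul_eq_mul_div]
  exact div_le_div_of_nonneg_right h3 hL.le

lemma Bdd.bessel {C : ℝ} (h : Bdd ν C) (S : Finset ℤ) :
    ∑ n ∈ S, ‖ν.coeff n‖ ^ 2 ≤ C ^ 2 := by
  have h1 : Tendsto (fun r : ℝ => ∑ n ∈ S, ‖bc r n / ((-Real.log (1 - r ^ 2) : ℝ) : ℂ) *
      ν.coeff n‖ ^ 2) (𝓝[<] 1) (𝓝 (∑ n ∈ S, ‖1 * ν.coeff n‖ ^ 2)) :=
    tendsto_finsetSum _ fun n _ => (((tendsto_bc n).mul_const _).norm).pow 2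
  simp only [one_mul] at h1
  refine le_of_tendsto_of_tendsto h1 ((tendsto_M C).pow 2) ?_
  filter_upwards [mem_Ioo, tendsto_L.eventually_gt_atTop 0] with r hr hL
  have h3 := bessel_r ν hr.1 hr.2 (h.fr hr.1 hr.2) S
  have e : ∑ n ∈ S, ‖bc r n / ((-Real.log (1 - r ^ 2) : ℝ) : ℂ) * ν.coeff n‖ ^ 2 =
      (∑ n ∈ S, ‖bc r n * ν.coeff n‖ ^ 2) / (-Real.log (1 - r ^ 2)) ^ 2 := by
    rw [Finset.sum_div]
    refine Finset.sum_congr rfl fun n _ => ?_
    rw [div_mul_eq_mul_div, norm_div, Complex.norm_real, Real.norm_of_nonneg hL.le, div_pow]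
  rw [e, div_pow]
  exact div_le_div_of_nonneg_right h3 (by positivity)

lemma Bdd.nonneg {C : ℝ} (h : Bdd ν C) : 0 ≤ C := by
  have := h 0 (by simp)
  simp at this
  exact (norm_nonneg _).trans this

lemma Bdd.star' {C : ℝ} (h : Bdd ν C) (S : Finset ℤ) (b : ℤ → ℂ) :
    ‖∑ n ∈ S, b n * ν.coeff (-n)‖ ≤ C * ∫ t, ‖∑ n ∈ S, b n * fourier n t‖ ∂(haarAddCircle : Measure UnitAddCircle) := by
  have := h.star (S.map (Equiv.neg ℤ).toEmbedding) (fun n => b (-n))
  simpa only [Finset.sum_map, Equiv.coe_toEmbedding, Equiv.neg_apply, neg_neg] using this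

lemma Bdd.exists_phi {C : ℝ} (h : Bdd ν C) :
    ∃ φ : Lp ℂ 2 (haarAddCircle : Measure UnitAddCircle), ∀ n, fourierCoeff φ n = ν.coeff n := by
  have hs : Summable fun n : ℤ => ‖ν.coeff n‖ ^ 2 :=
    summable_of_sum_le (fun _ => by positivity) h.bessel
  have hm : Memℓp ν.coeff 2 := by
    refine memℓp_gen ?_
    simpa using hs
  refine ⟨fourierBasis.repr.symm ⟨ν.coeff, hm⟩, fun n => ?_⟩
  rw [← fourierBasis_repr, LinearIsometryEquiv.apply_symm_apply]

lemma integral_norm_le (h : Lp ℂ 2 (haarAddCircle : Measure UnitAddCircle)) : ∫ t, ‖h t‖ ∂(haarAddCircle : Measure UnitAddCircle) ≤ ‖h‖ := by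
  rw [integral_norm_eq_lintegral_enorm (Lp.aestronglyMeasurable h), Lp.norm_def,
    ← eLpNorm_one_eq_lintegral_enorm]
  exact ENNReal.toReal_mono (Lp.eLpNorm_ne_top h)
    (eLpNorm_le_eLpNorm_of_exponent_le (by norm_num) (Lp.aestronglyMeasurable h))

lemma integrable_lp (h : Lp ℂ 2 (haarAddCircle : Measure UnitAddCircle)) : Integrable h (haarAddCircle : Measure UnitAddCircle) :=
  (Lp.memLp h).integrable (by norm_num)

lemma memLp_conj {f : UnitAddCircle → ℂ} {p : ℝ≥0∞} (hf : MemLp f p (haarAddCircle : Measure UnitAddCircle)) :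
    MemLp (fun t => conj (f t)) p (haarAddCircle : Measure UnitAddCircle) :=
  hf.of_le (continuous_conj.comp_aestronglyMeasurable hf.aestronglyMeasurable)
    (Eventually.of_forall fun t => (Complex.norm_conj _).le)

lemma inner_conj {φ : Lp ℂ 2 (haarAddCircle : Measure UnitAddCircle)} (g : Lp ℂ 2 (haarAddCircle : Measure UnitAddCircle)) :
    inner ℂ ((memLp_conj (Lp.memLp φ)).toLp) g = ∫ t, φ t * g t ∂(haarAddCircle : Measure UnitAddCircle) := by
  rw [L2.inner_def]
  refine integral_congr_ae ?_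
  filter_upwards [(memLp_conj (Lp.memLp φ)).coeFn_toLp] with t ht
  rw [ht, RCLike.inner_apply]
  simp [mul_comm]

lemma coeFn_sum_fourierLp (S : Finset ℤ) (b : ℤ → ℂ) :
    (∑ i ∈ S, b i • fourierLp 2 i : Lp ℂ 2 (haarAddCircle : Measure UnitAddCircle)) =ᵐ[(haarAddCircle : Measure UnitAddCircle)] fun t => ∑ i ∈ S, b i * fourier i t := by
  induction S using Finset.cons_induction with
  | empty =>
    simp only [Finset.sum_empty]
    exact Lp.coeFn_zero _ _ _
  | cons a S ha ih =>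
    rw [Finset.sum_cons]
    filter_upwards [Lp.coeFn_add (b a • fourierLp 2 a : Lp ℂ 2 (haarAddCircle : Measure UnitAddCircle)) (∑ i ∈ S, b i • fourierLp 2 i),
      Lp.coeFn_smul (b a) (fourierLp 2 a : Lp ℂ 2 (haarAddCircle : Measure UnitAddCircle)), coeFn_fourierLp 2 a, ih] with t h1 h2 h3 h4
    rw [h1, Pi.add_apply, h2, Pi.smul_apply, h3, h4, Finset.sum_cons, smul_eq_mul]

lemma Bdd.star2 {C : ℝ} (h : Bdd ν C) {φ : Lp ℂ 2 (haarAddCircle : Measure UnitAddCircle)} (hφ : ∀ n, fourierCoeff φ n = ν.coeff n)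
    (g : Lp ℂ 2 (haarAddCircle : Measure UnitAddCircle)) : ‖∫ t, φ t * g t ∂(haarAddCircle : Measure UnitAddCircle)‖ ≤ C * ∫ t, ‖g t‖ ∂(haarAddCircle : Measure UnitAddCircle) := by
  rw [← inner_conj]
  set ψ : Lp ℂ 2 (haarAddCircle : Measure UnitAddCircle) := (memLp_conj (Lp.memLp φ)).toLp with hψ
  have hg := hasSum_fourier_series_L2 g
  have h1 : Tendsto (fun S : Finset ℤ => ‖inner ℂ ψ (∑ i ∈ S, fourierCoeff g i • fourierLp 2 i)‖)
      atTop (𝓝 ‖inner ℂ ψ g‖) :=
    (((innerSL ℂ ψ).continuous.tendsto g).comp hg).norm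
  have h2 : Tendsto (fun S : Finset ℤ => C * (∫ t, ‖g t‖ ∂(haarAddCircle : Measure UnitAddCircle) +
      ‖(∑ i ∈ S, fourierCoeff g i • fourierLp 2 i) - g‖)) atTop (𝓝 (C * (∫ t, ‖g t‖ ∂(haarAddCircle : Measure UnitAddCircle) + 0))) := by
    refine Tendsto.const_mul _ (Tendsto.const_add _ ?_)
    exact tendsto_iff_norm_sub_tendsto_zero.1 hg
  rw [add_zero] at h2
  refine le_of_tendsto_of_tendsto h1 h2 (Eventually.of_forall fun S => ?_)
  have e1 : inner ℂ ψ (∑ i ∈ S, fourierCoeff g i • fourierLp 2 i) =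
      ∑ i ∈ S, fourierCoeff g i * ν.coeff (-i) := by
    rw [inner_sum]
    refine Finset.sum_congr rfl fun i _ => ?_
    rw [inner_smul_right, inner_conj, ← hφ]
    congr 1
    refine integral_congr_ae ?_
    filter_upwards [coeFn_fourierLp 2 i] with t ht
    rw [ht, neg_neg, smul_eq_mul, mul_comm]
  have e2 : ∫ t, ‖∑ i ∈ S, fourierCoeff g i * fourier i t‖ ∂(haarAddCircle : Measure UnitAddCircle) ≤
      ∫ t, ‖g t‖ ∂(haarAddCircle : Measure UnitAddCircle) + ‖(∑ i ∈ S, fourierCoeff g i • fourierLp 2 i) - g‖ := by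
    have e3 : (∑ i ∈ S, fourierCoeff g i • fourierLp 2 i : Lp ℂ 2 (haarAddCircle : Measure UnitAddCircle)) =ᵐ[(haarAddCircle : Measure UnitAddCircle)]
        fun t => ∑ i ∈ S, fourierCoeff g i * fourier i t := coeFn_sum_fourierLp S _
    calc ∫ t, ‖∑ i ∈ S, fourierCoeff g i * fourier i t‖ ∂(haarAddCircle : Measure UnitAddCircle)
        = ∫ t, ‖(∑ i ∈ S, fourierCoeff g i • fourierLp 2 i : Lp ℂ 2 (haarAddCircle : Measure UnitAddCircle)) t‖ ∂(haarAddCircle : Measure UnitAddCircle) := by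
          refine integral_congr_ae ?_
          filter_upwards [e3] with t ht
          rw [ht]
      _ ≤ ∫ t, (‖g t‖ + ‖((∑ i ∈ S, fourierCoeff g i • fourierLp 2 i) - g : Lp ℂ 2 (haarAddCircle : Measure UnitAddCircle)) t‖) ∂(haarAddCircle : Measure UnitAddCircle) := by
          refine integral_mono_ae (integrable_lp _).norm
            ((integrable_lp g).norm.add (integrable_lp _).norm) ?_
          filter_upwards [Lp.coeFn_sub (∑ i ∈ S, fourierCoeff g i • fourierLp 2 i : Lp ℂ 2 (haarAddCircle : Measure UnitAddCircle)) g]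
            with t ht
          rw [ht, Pi.sub_apply]
          have := norm_add_le (g t) ((∑ i ∈ S, fourierCoeff g i • fourierLp 2 i : Lp ℂ 2 (haarAddCircle : Measure UnitAddCircle)) t - g t)
          rwa [add_sub_cancel] at this
      _ = ∫ t, ‖g t‖ ∂(haarAddCircle : Measure UnitAddCircle) +
          ∫ t, ‖((∑ i ∈ S, fourierCoeff g i • fourierLp 2 i) - g : Lp ℂ 2 (haarAddCircle : Measure UnitAddCircle)) t‖ ∂(haarAddCircle : Measure UnitAddCircle) :=
          integral_add (integrable_lp g).norm (integrable_lp _).norm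
      _ ≤ _ := by
          gcongr
          exact integral_norm_le _
  show ‖inner ℂ ψ (∑ i ∈ S, fourierCoeff g i • fourierLp 2 i)‖ ≤ _
  rw [e1]
  exact (h.star' S _).trans (mul_le_mul_of_nonneg_left e2 h.nonneg)

lemma Bdd.bound {C : ℝ} (h : Bdd ν C) {φ : Lp ℂ 2 (haarAddCircle : Measure UnitAddCircle)} (hφ : ∀ n, fourierCoeff φ n = ν.coeff n) :
    ∀ᵐ t ∂(haarAddCircle : Measure UnitAddCircle), ‖φ t‖ ≤ C := by
  have hφm := (Lp.stronglyMeasurable φ).measurable
  set A : Set UnitAddCircle := {t | C < ‖φ t‖} with hA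
  have hAm : MeasurableSet A := measurableSet_lt measurable_const hφm.norm
  set g0 : UnitAddCircle → ℂ := A.indicator fun t => conj (φ t) / ‖φ t‖ with hg0
  have hg0m : Measurable g0 :=
    ((continuous_conj.measurable.comp hφm).div (measurable_ofReal.comp hφm.norm)).indicator hAm
  have hg0n : ∀ t, ‖g0 t‖ = A.indicator (fun _ => (1 : ℝ)) t := by
    intro t
    by_cases ht : t ∈ A
    · rw [hg0, Set.indicator_of_mem ht, Set.indicator_of_mem ht, norm_div, Complex.norm_conj,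
        Complex.norm_real, norm_norm, div_self]
      exact (h.nonneg.trans_lt ht).ne'
    · rw [hg0, Set.indicator_of_notMem ht, Set.indicator_of_notMem ht, norm_zero]
  have hg0p : ∀ t, φ t * g0 t = ((A.indicator (fun t => ‖φ t‖) t : ℝ) : ℂ) := by
    intro t
    by_cases ht : t ∈ A
    · rw [hg0, Set.indicator_of_mem ht, Set.indicator_of_mem ht]
      have h0 : (‖φ t‖ : ℂ) ≠ 0 := by exact_mod_cast (h.nonneg.trans_lt ht).ne'
      rw [mul_div_assoc', Complex.mul_conj, Complex.normSq_eq_norm_sq]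
      push_cast
      field_simp
    · rw [hg0, Set.indicator_of_notMem ht, Set.indicator_of_notMem ht, mul_zero]
      simp
  have hg0L : MemLp g0 2 (haarAddCircle : Measure UnitAddCircle) := by
    refine MemLp.of_bound hg0m.aestronglyMeasurable 1 (Eventually.of_forall fun t => ?_)
    rw [hg0n]
    exact Set.indicator_le_self' (fun _ _ => zero_le_one) t
  let g1 : Lp ℂ 2 (haarAddCircle : Measure UnitAddCircle) := hg0L.toLp g0
  have h1 := h.star2 hφ g1
  have e1 : ∫ t, φ t * g1 t ∂(haarAddCircle : Measure UnitAddCircle) = ((∫ t, A.indicator (fun t => ‖φ t‖) t ∂(haarAddCircle : Measure UnitAddCircle) : ℝ) : ℂ) := by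
    have e0 : ((∫ t, A.indicator (fun t => ‖φ t‖) t ∂(haarAddCircle : Measure UnitAddCircle) : ℝ) : ℂ) =
        ∫ t, ((A.indicator (fun t => ‖φ t‖) t : ℝ) : ℂ) ∂(haarAddCircle : Measure UnitAddCircle) := integral_ofReal.symm
    rw [e0]
    refine integral_congr_ae ?_
    filter_upwards [hg0L.coeFn_toLp] with t ht
    rw [← hg0p, ← ht]
  have e2 : ∫ t, ‖g1 t‖ ∂(haarAddCircle : Measure UnitAddCircle) = ∫ t, A.indicator (fun _ => (1 : ℝ)) t ∂(haarAddCircle : Measure UnitAddCircle) := by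
    refine integral_congr_ae ?_
    filter_upwards [hg0L.coeFn_toLp] with t ht
    rw [ht, hg0n]
  have i1 : Integrable (fun t => A.indicator (fun t => ‖φ t‖) t) (haarAddCircle : Measure UnitAddCircle) :=
    (integrable_lp φ).norm.indicator hAm
  have i2 : Integrable (fun t => A.indicator (fun _ => (1 : ℝ)) t) (haarAddCircle : Measure UnitAddCircle) :=
    (integrable_const _).indicator hAm
  rw [e1, e2, Complex.norm_real, Real.norm_eq_abs] at h1
  have h2 := (le_abs_self _).trans h1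
  have h3 : ∫ t, (A.indicator (fun t => ‖φ t‖) t - C * A.indicator (fun _ => (1 : ℝ)) t) ∂(haarAddCircle : Measure UnitAddCircle) ≤ 0 := by
    rw [integral_sub i1 (i2.const_mul C), integral_const_mul]
    linarith
  have h4 : ∀ t, 0 ≤ A.indicator (fun t => ‖φ t‖) t - C * A.indicator (fun _ => (1 : ℝ)) t := by
    intro t
    by_cases ht : t ∈ A
    · rw [Set.indicator_of_mem ht, Set.indicator_of_mem ht]
      have : C < ‖φ t‖ := ht
      linarith
    · rw [Set.indicator_of_notMem ht, Set.indicator_of_notMem ht]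
      simp
  have h5 := (integral_eq_zero_iff_of_nonneg (fun t => h4 t) (i1.sub (i2.const_mul C))).1
    (le_antisymm h3 (integral_nonneg h4))
  filter_upwards [h5] with t ht
  by_contra hcon
  have htA : t ∈ A := not_le.1 hcon
  rw [Set.indicator_of_mem htA, Set.indicator_of_mem htA] at ht
  have h6 : C < ‖φ t‖ := htA
  have h7 : ‖φ t‖ - C * 1 = 0 := ht
  linarith

lemma continuous_of_analytic {g : UnitAddCircle → ℂ}
    (hg : ∀ x : ℝ, AnalyticAt ℝ (fun y : ℝ => g (y : UnitAddCircle)) x) : Continuous g := by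
  have h1 : Continuous fun y : ℝ => g (y : UnitAddCircle) :=
    continuous_iff_continuousAt.2 fun x => (hg x).continuousAt
  exact continuous_coinduced_dom.2 h1

lemma hasSum_eval {φ : Lp ℂ 2 (haarAddCircle : Measure UnitAddCircle)} (hφ : ∀ n, fourierCoeff φ n = ν.coeff n)
    {g : UnitAddCircle → ℂ} (hg : Continuous g) :
    HasSum (fun n => fourierCoeff g n * ν.coeff (-n)) (∫ t, g t * φ t ∂(haarAddCircle : Measure UnitAddCircle)) := by
  have hgL : MemLp g 2 (haarAddCircle : Measure UnitAddCircle) :=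
    (MemLp.of_bound (p := 2) hg.aestronglyMeasurable
      (isCompact_univ.exists_bound_of_continuousOn hg.continuousOn).choose
      (Eventually.of_forall fun t =>
        (isCompact_univ.exists_bound_of_continuousOn hg.continuousOn).choose_spec t trivial))
  let G : Lp ℂ 2 (haarAddCircle : Measure UnitAddCircle) := (memLp_conj hgL).toLp
  have hG : (G : UnitAddCircle → ℂ) =ᵐ[(haarAddCircle : Measure UnitAddCircle)] fun t => conj (g t) := (memLp_conj hgL).coeFn_toLp
  have h := fourierBasis.hasSum_inner_mul_inner G φ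
  have e : ∀ n : ℤ, inner ℂ G (fourierBasis n) = fourierCoeff g (-n) := by
    intro n
    rw [coe_fourierBasis, L2.inner_def]
    refine integral_congr_ae ?_
    filter_upwards [hG, coeFn_fourierLp 2 n] with t h1 h2
    rw [h1, h2, RCLike.inner_apply, neg_neg, smul_eq_mul]
    simp
  have e' : ∀ n : ℤ, inner ℂ (fourierBasis n) φ = ν.coeff n := by
    intro n
    rw [← hφ, ← fourierBasis_repr, HilbertBasis.repr_apply_apply]
  have e'' : inner ℂ G φ = ∫ t, g t * φ t ∂(haarAddCircle : Measure UnitAddCircle) := by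
    rw [L2.inner_def]
    refine integral_congr_ae ?_
    filter_upwards [hG] with t h1
    rw [h1, RCLike.inner_apply]
    simp [mul_comm]
  rw [e''] at h
  simp only [e, e'] at h
  have := (Equiv.neg ℤ).hasSum_iff.2 h
  simpa only [Function.comp_def, Equiv.neg_apply, neg_neg] using this

end transform

/-- Let `ν` be an analytic functional on the circle whose biharmonic Poisson transform `f` satisfies
`‖f z‖ ≤ C (1 + R)`, `R = log ((1 + ‖z‖) / (1 - ‖z‖))`. Then `ν` is a measure with bounded density. -/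
theorem result (ν : AnalyticFunctional) (C : ℝ)
    (hf : ∀ z : ℂ, ‖z‖ < 1 → ‖ν.transform z‖ ≤ C * (1 + Real.log ((1 + ‖z‖) / (1 - ‖z‖)))) :
    ∃ φ : UnitAddCircle → ℂ, MemLp φ ∞ haarAddCircle ∧ (∀ᵐ t ∂(haarAddCircle : Measure UnitAddCircle), ‖φ t‖ ≤ C) ∧
      ∀ g : UnitAddCircle → ℂ, (∀ x : ℝ, AnalyticAt ℝ (fun y : ℝ => g (y : UnitAddCircle)) x) →
        HasSum (fun n => fourierCoeff g n * ν.coeff (-n)) (ν.eval g) ∧
          ν.eval g = ∫ t, g t * φ t ∂haarAddCircle := by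
  have h : Bdd ν C := hf
  obtain ⟨φ, hφ⟩ := h.exists_phi
  have hb := h.bound hφ
  refine ⟨φ, memLp_top_of_bound (Lp.aestronglyMeasurable φ) C hb, hb, fun g hg => ?_⟩
  have h1 := hasSum_eval hφ (continuous_of_analytic hg)
  have h2 : ν.eval g = ∫ t, g t * φ t ∂haarAddCircle := h1.tsum_eq
  rw [h2]
  exact ⟨h1, rfl⟩

end Pool.Agent.Results.MP_a0f451_an.BoundedDensity
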